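import Pool.Agent.Helper5.FRC.GoalsG

/-!
# Project FRC, packet EXTG

The solution of the smaller state gives one of the larger (even circuits of any length). Adapted from
`Helper15.FRC.EXTY`.
-/

set_option autoImplicit false

namespace Pool.Agent.Helper85.FRC.EXTG

open Finset Pool.Agent.Helper5.FRC

theorem t : Pool.Agent.Helper5.FRC.ExtgStmt := by
  intro V _ _ n A Z t p t' hA hT hZA hZ hZ4 hp hpn hT' hch hU hsol
  obtain ⟨P', Y', hY'A, hP', hY', hfix, hcard, hodd⟩ := hsol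
  classical
  let P : V → V := fun v => if v ∈ Z then p v else P' v
  have hPZ : ∀ v ∈ Z, P v = p v := fun v hv => if_pos hv
  have hPn : ∀ v, v ∉ Z → P v = P' v := fun v hv => if_neg hv
  obtain ⟨W, hWZ, hWp, hW⟩ := hch Y' hY'A
  have hdm : dm t' Y' = 0 := by
    unfold dm
    rw [card_eq_zero, filter_eq_empty_iff]
    intro x hx h
    exact h (hY' x hx).1
  rw [hdm] at hW
  unfold dm at hW
  rw [card_eq_zero, filter_eq_empty_iff] at hW
  have hYt : ∀ v ∈ Y' ∪ W, t v ∈ Y' ∪ W := fun v hv => by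
    have := hW hv
    push Not at this
    exact this
  have hY'sub : ∀ v ∈ Y', v ∈ A ∧ v ∉ Z := fun v hv => by
    have := hY'A hv
    rw [mem_sdiff] at this
    exact this
  have hinY' : ∀ v ∈ Y', v ∈ Y' ∪ W := fun v hv => mem_union_left _ hv
  have hYP : ∀ v ∈ Y' ∪ W, P v ∈ Y' ∪ W := by
    intro v hv
    rcases mem_union.1 hv with hv' | hv'
    · rw [hPn v (hY'sub v hv').2]
      exact hinY' _ (hY' v hv').2
    · rw [hPZ v (hWZ hv')]
      exact mem_union_right _ (hWp v hv')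
  refine ⟨P, Y' ∪ W, ?_, ?_, fun v hv => ⟨hYt v hv, hYP v hv⟩, ?_, ?_, ?_⟩
  · intro v hv
    rcases mem_union.1 hv with hv' | hv'
    · exact (hY'sub v hv').1
    · exact hZA (hWZ hv')
  · intro v hv
    by_cases hvZ : v ∈ Z
    · rw [hPZ v hvZ, hPZ _ (hp v hvZ).1]
      exact ⟨hZA (hp v hvZ).1, (hp v hvZ).2.1, Or.inr (hpn v hvZ)⟩
    · have h := hP' v (mem_sdiff.2 ⟨hv, hvZ⟩)
      rw [hPn v hvZ, hPn _ (mem_sdiff.1 h.1).2]
      exact ⟨(mem_sdiff.1 h.1).1, h.2⟩
  · intro v hv hPv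
    have hvZ : v ∉ Z := fun hvZ => (hp v hvZ).2.2 (by rw [← hPZ v hvZ]; exact hPv)
    rw [hPn v hvZ] at hPv
    have h := hfix v (mem_sdiff.2 ⟨hv, hvZ⟩) hPv
    refine ⟨hinY' v h.1, ?_⟩
    by_cases hnZ : n v ∈ Z
    · rw [hPZ _ hnZ]
      exact (hp _ hnZ).2.2
    · rw [hPn _ hnZ]
      exact h.2
  · have heq : (A.filter fun v => P v = v) = ((A \ Z).filter fun v => P' v = v) := by
      ext v
      simp only [mem_filter, mem_sdiff]
      constructor
      · rintro ⟨hv, hPv⟩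
        have hvZ : v ∉ Z := fun hvZ => (hp v hvZ).2.2 (by rw [← hPZ v hvZ]; exact hPv)
        rw [hPn v hvZ] at hPv
        exact ⟨⟨hv, hvZ⟩, hPv⟩
      · rintro ⟨⟨hv, hvZ⟩, hPv⟩
        rw [hPn v hvZ]
        exact ⟨hv, hPv⟩
    rw [heq]
    exact hcard
  · intro S hSA hS hSodd
    by_contra hcon
    push Not at hcon
    -- `S ∩ Z` is empty or all of `Z`
    have hSZ : (∃ z ∈ Z, z ∈ S) → Z ⊆ S := by
      rintro ⟨z, hz, hzS⟩
      have h := hZ.2.2 (Z ∩ S) inter_subset_left ⟨z, mem_inter.2 ⟨hz, hzS⟩⟩ (by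
        intro x hx
        rw [mem_inter] at hx
        exact mem_inter.2 ⟨hZ.2.1 x hx.1, hS x hx.2⟩)
      intro x hx
      rw [← h] at hx
      exact (mem_inter.1 hx).2
    have hinv : Inv n (S \ Z) := by
      intro x hx
      rw [mem_sdiff] at hx ⊢
      refine ⟨hS x hx.1, fun hnx => hx.2 ?_⟩
      have h := Equiv.Perm.perm_symm_on_of_perm_on_finset (f := n) (s := Z)
        (fun y hy => hZ.2.1 y hy) hnx
      simpa using h
    have hodd' : Odd (S \ Z).card := by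
      by_cases h : ∃ z ∈ Z, z ∈ S
      · have h1 := hSZ h
        have h2 := card_sdiff_add_card_eq_card h1
        rw [← h2] at hSodd
        rw [Nat.even_iff] at hZ4
        rw [Nat.odd_iff] at hSodd ⊢
        omega
      · push Not at h
        have h1 : S \ Z = S := by
          ext x
          rw [mem_sdiff]
          exact ⟨fun hx => hx.1, fun hx => ⟨hx, fun hxZ => h x hxZ hx⟩⟩
        rw [h1]
        exact hSodd
    obtain ⟨x, hx, hxY', htx⟩ := hodd (S \ Z) (sdiff_subset_sdiff hSA le_rfl) hinv hodd'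
    have hxY : x ∉ Y' ∪ W := by
      rw [mem_union]
      rintro (h | h)
      · exact hxY' h
      · exact (mem_sdiff.1 hx).2 (hWZ h)
    have h1 := hU (S \ (Y' ∪ W)) (sdiff_subset.trans hSA) ?_ ?_ x
      (mem_sdiff.2 ⟨mem_sdiff.2 ⟨(mem_sdiff.1 hx).1, hxY⟩, (mem_sdiff.1 hx).2⟩)
    · rw [mem_sdiff, mem_sdiff] at h1
      exact htx (mem_sdiff.2 ⟨h1.1.1, h1.2⟩)
    · intro y hy
      rw [mem_sdiff] at hy ⊢
      refine ⟨hcon y hy.1 hy.2, fun h => hy.2 ?_⟩
      have := hYt _ h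
      rwa [(hT y (hSA hy.1)).2.1] at this
    · intro y hy hyZ
      rw [mem_sdiff] at hy ⊢
      refine ⟨hSZ ⟨y, hyZ, hy.1⟩ (hp y hyZ).1, fun h => hy.2 ?_⟩
      have := hYP _ h
      rwa [hPZ _ (hp y hyZ).1, (hp y hyZ).2.1] at this

end Pool.Agent.Helper85.FRC.EXTG
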